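import Pool.Agent.Helper31.BQ.Stmts2

set_option autoImplicit false

namespace Pool.Agent.Helper28.BQ

open Filter Topology Pool.Agent.Helper31.BQ

theorem CL_cont {H : Type} [NormedAddCommGroup H] (k : ℕ) (g : GG k) :
    Continuous (fun x : WW H => (x : ∀ k, GG k → H) k g) := by
  have h1 : Continuous (fun x : WW H => (x : ∀ k, GG k → H)) :=
    (lp.uniformContinuous_coe (E := fun k : ℕ => (GG k → H)) (p := 2)).continuous
  exact (continuous_apply g).comp ((continuous_apply k).comp h1)

theorem CL_sep (H : Type) [NormedAddCommGroup H] [TopologicalSpace.SeparableSpace H] :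
    TopologicalSpace.SeparableSpace (WW H) := by
  rw [← TopologicalSpace.isSeparable_univ_iff]
  have h1 : ∀ n : ℕ, TopologicalSpace.IsSeparable (Set.range
      (fun y : (∀ k : Fin n, (GG (k : ℕ) → H)) => ∑ k : Fin n,
        (lp.single 2 (k : ℕ) (y k) : WW H))) := by
    intro n
    apply TopologicalSpace.isSeparable_range
    apply continuous_finsetSum
    intro k _
    exact (lp.isometry_single (E := fun k : ℕ => (GG k → H)) (p := 2) (k : ℕ)).continuous.comp
      (continuous_apply k)
  have h2 := (TopologicalSpace.IsSeparable.iUnion h1).closure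
  refine h2.mono (fun x _ => ?_)
  have h3 := (lp.hasSum_single (E := fun k : ℕ => (GG k → H)) (p := 2) (by norm_num) x)
  have h4 := h3.tendsto_sum_nat
  refine mem_closure_of_tendsto h4 (Eventually.of_forall (fun n => ?_))
  refine Set.mem_iUnion.mpr ⟨n, ⟨fun k => (x : ∀ k, GG k → H) (k : ℕ), ?_⟩⟩
  simp only
  exact Fin.sum_univ_eq_sum_range (fun k => (lp.single 2 k ((x : ∀ k, GG k → H) k) : WW H)) n

theorem st_CL : ST_CL := by
  intro H _ _ _ _ J σ τ
  have hcl : IsClosed (EE J σ τ : Set (WW H)) := by
    have : (EE J σ τ : Set (WW H)) = ⋂ k : ℕ, ⋂ j : Fin (2 ^ (k + 1)), {x : WW H |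
        ((2 : ℝ) ^ (k + 2))⁻¹ • ∑ g, τ k j g • J k ((x : ∀ k, GG k → H) k g) =
        ((2 : ℝ) ^ (k + 3))⁻¹ • ∑ h, σ (k + 1) j h •
          J (k + 1) ((x : ∀ k, GG k → H) (k + 1) h)} := by
      ext x
      simp only [Set.mem_iInter, Set.mem_setOf_eq]
      rfl
    rw [this]
    refine isClosed_iInter (fun k => isClosed_iInter (fun j => ?_))
    refine isClosed_eq ?_ ?_
    · refine Continuous.const_smul (continuous_finsetSum _ (fun g _ => ?_)) _
      exact ((J k).continuous.comp (CL_cont k g)).const_smul _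
    · refine Continuous.const_smul (continuous_finsetSum _ (fun g _ => ?_)) _
      exact ((J (k + 1)).continuous.comp (CL_cont (k + 1) g)).const_smul _
  refine ⟨hcl, hcl.completeSpace_coe, ?_⟩
  haveI := CL_sep H
  haveI : SecondCountableTopology (WW H) :=
    UniformSpace.secondCountable_of_separable (WW H)
  infer_instance

end Pool.Agent.Helper28.BQ
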