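import Pool.Agent.Helper31.BQ.Stmts3

set_option autoImplicit false

universe u

namespace Pool.Agent.Helper28.BQ

open Filter Topology Pool.Agent.Helper31.BQ

theorem st_FN (hGR : ST_GR.{u}) (hYB : ST_YB.{u}) (hGN : ST_GN2.{u}) : ST_FN.{u} := by
  intro E _ _ _ hQ
  apply hGR E
  intro x hx ε hε
  obtain ⟨Y, iY1, iY2, M, j, y, hYc, hM, hP, hJ, hy, hjy, hT⟩ := hYB E x hx
  obtain ⟨T, hT1, hT2⟩ := hGN Y E M j hM hP hJ hQ
  obtain ⟨C, hC⟩ : ∃ C, ∀ i, ‖T i‖ ≤ C := banach_steinhaus (fun z => by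
    obtain ⟨C, hC⟩ := (hT2 z).norm.bddAbove_range
    exact ⟨C, fun i => hC ⟨i, rfl⟩⟩)
  have hC0 : 0 ≤ C := (norm_nonneg _).trans (hC 0)
  obtain ⟨B, hB⟩ : ∃ B, ∀ n, ‖y n‖ ≤ B := by
    obtain ⟨B, hB⟩ := hy.norm.bddAbove_range
    exact ⟨B, fun i => hB ⟨i, rfl⟩⟩
  have hB0 : 0 ≤ B := (norm_nonneg _).trans (hB 0)
  obtain ⟨K, hK⟩ : ∃ K : ℝ, K = C + ‖j‖ + 1 := ⟨_, rfl⟩
  have hK0 : 0 < K := by
    have := norm_nonneg j
    rw [hK]
    linarith
  have hy0 : Tendsto (fun n => ‖y n‖) atTop (𝓝 0) := by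
    simpa using hy.norm
  obtain ⟨N, hN⟩ := eventually_atTop.mp (hy0.eventually_le_const
    (show (0 : ℝ) < ε / (2 * K) by positivity))
  have hev : ∀ᶠ i in atTop, ∀ n ∈ Finset.range N, ‖T i (y n) - j (y n)‖ ≤ ε / 2 := by
    rw [Filter.eventually_all_finset]
    intro n _
    have h1 : Tendsto (fun i => ‖T i (y n) - j (y n)‖) atTop (𝓝 0) := by
      have := ((hT2 (y n)).sub_const (j (y n))).norm
      simpa using this
    exact h1.eventually_le_const (by positivity)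
  obtain ⟨i, hi⟩ := hev.exists
  have hall : ∀ n, ‖T i (y n) - j (y n)‖ ≤ ε / 2 := by
    intro n
    by_cases hn : n < N
    · exact hi n (Finset.mem_range.mpr hn)
    · have h1 := hN n (not_lt.mp hn)
      rw [le_div_iff₀ (by positivity)] at h1
      have h2 : ‖T i (y n)‖ ≤ C * ‖y n‖ := (T i).le_of_opNorm_le (hC i) _
      have h3 : ‖j (y n)‖ ≤ ‖j‖ * ‖y n‖ := j.le_opNorm _
      have h4 := norm_sub_le (T i (y n)) (j (y n))
      have h5 := norm_nonneg (y n)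
      rw [hK] at h1
      nlinarith
  have hδ : 0 < ε / (2 * (B + 1)) := by positivity
  obtain ⟨R, hR, hRT⟩ := Metric.mem_closure_iff.mp (hT1 i) _ hδ
  obtain ⟨T', hT', hTT'⟩ := hT R hR
  refine ⟨T', hT', fun n => ?_⟩
  rw [← hjy n, ← hTT']
  rw [dist_eq_norm] at hRT
  have h1 : ‖T i (y n) - R (y n)‖ ≤ ε / (2 * (B + 1)) * ‖y n‖ := by
    rw [← ContinuousLinearMap.sub_apply]
    exact (T i - R).le_of_opNorm_le hRT.le _
  have h2 : ε / (2 * (B + 1)) * ‖y n‖ ≤ ε / 2 := by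
    have h3 : ε / (2 * (B + 1)) * ‖y n‖ ≤ ε / (2 * (B + 1)) * (B + 1) :=
      mul_le_mul_of_nonneg_left (by linarith [hB n]) hδ.le
    refine h3.trans (le_of_eq ?_)
    have : B + 1 ≠ 0 := by positivity
    field_simp
  have h3 := hall n
  calc ‖R (y n) - j (y n)‖ = ‖(T i (y n) - j (y n)) - (T i (y n) - R (y n))‖ := by
        congr 1
        abel
    _ ≤ ‖T i (y n) - j (y n)‖ + ‖T i (y n) - R (y n)‖ := norm_sub_le _ _
    _ ≤ ε := by linarith

end Pool.Agent.Helper28.BQ
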